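import Pool.Agent.Hhelper13.ALoop.Hall

/-!
# Hall subloops of finite solvable automorphic loops

`Loop Q`: loops.  `Inn Q`: the inner mapping group.  `Automorphic Q`: all inner mappings are automorphisms.
`Subloop Q`: subloops, which are loops themselves.  `NormalIn N T`: `N` is a normal subloop of the loop `T`.
`AbelianQuotient N T`: the product of cosets in `T / N` is commutative and associative.  `Solvable Q`:
solvable in the sense of Bruck.  `piPart π n`: the largest divisor of `n` with all prime factors in `π`.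
-/

set_option autoImplicit false

namespace Pool.Agent.Results.MP_428e1d_al.HallSubloops

/-- loops: a multiplication with two-sided identity `1` such that `a * x = b` and `y * a = b` have unique
solutions `x`, `y` -/
class Loop (Q : Type) extends MulOneClass Q where
  left_bij : ∀ a : Q, Function.Bijective (fun x : Q => a * x)
  right_bij : ∀ a : Q, Function.Bijective (fun x : Q => x * a)

/-- the permutation `z ↦ x * z` -/
noncomputable def Lm {Q : Type} [Loop Q] (x : Q) : Equiv.Perm Q :=
  Equiv.ofBijective (fun z => x * z) (Loop.left_bij x)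

/-- the permutation `z ↦ z * x` -/
noncomputable def Rm {Q : Type} [Loop Q] (x : Q) : Equiv.Perm Q :=
  Equiv.ofBijective (fun z => z * x) (Loop.right_bij x)

/-- the inner mapping group -/
noncomputable def Inn (Q : Type) [Loop Q] : Subgroup (Equiv.Perm Q) :=
  Subgroup.closure
    ({φ | ∃ x y : Q, φ = (Lm (x * y))⁻¹ * Lm x * Lm y} ∪
      {φ | ∃ x y : Q, φ = (Rm (x * y))⁻¹ * Rm y * Rm x} ∪
      {φ | ∃ x : Q, φ = (Rm x)⁻¹ * Lm x})

/-- every inner mapping is an automorphism -/
def Automorphic (Q : Type) [Loop Q] : Prop :=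
  ∀ φ ∈ Inn Q, ∀ a b : Q, φ (a * b) = φ a * φ b

/-- subloops: nonempty subsets closed under multiplication and under left and right division -/
structure Subloop (Q : Type) [Loop Q] where
  /-- the underlying set -/
  carrier : Set Q
  nonempty : carrier.Nonempty
  mul_mem : ∀ a ∈ carrier, ∀ b ∈ carrier, a * b ∈ carrier
  ldiv_mem : ∀ a ∈ carrier, ∀ b ∈ carrier, ∀ x, a * x = b → x ∈ carrier
  rdiv_mem : ∀ a ∈ carrier, ∀ b ∈ carrier, ∀ y, y * a = b → y ∈ carrier

theorem Subloop.one_mem {Q : Type} [Loop Q] (S : Subloop Q) : (1 : Q) ∈ S.carrier := by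
  obtain ⟨a, ha⟩ := S.nonempty
  exact S.ldiv_mem a ha a ha 1 (mul_one a)

/-- a subloop is a loop -/
instance {Q : Type} [Loop Q] (S : Subloop Q) : Loop S.carrier where
  one := ⟨1, S.one_mem⟩
  mul a b := ⟨a.1 * b.1, S.mul_mem a.1 a.2 b.1 b.2⟩
  one_mul a := Subtype.ext (one_mul a.1)
  mul_one a := Subtype.ext (mul_one a.1)
  left_bij a := by
    refine ⟨fun x y h => Subtype.ext ((Loop.left_bij a.1).1 (congrArg Subtype.val h)), fun b => ?_⟩
    obtain ⟨x, hx⟩ := (Loop.left_bij a.1).2 b.1
    exact ⟨⟨x, S.ldiv_mem a.1 a.2 b.1 b.2 x hx⟩, Subtype.ext hx⟩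
  right_bij a := by
    refine ⟨fun x y h => Subtype.ext ((Loop.right_bij a.1).1 (congrArg Subtype.val h)), fun b => ?_⟩
    obtain ⟨x, hx⟩ := (Loop.right_bij a.1).2 b.1
    exact ⟨⟨x, S.rdiv_mem a.1 a.2 b.1 b.2 x hx⟩, Subtype.ext hx⟩

/-- `N` is contained in `T` and a normal subloop of the loop `T`: `φ(N) = N` for every inner mapping `φ`
of `T` -/
def NormalIn {Q : Type} [Loop Q] (N T : Subloop Q) : Prop :=
  N.carrier ⊆ T.carrier ∧
    ∀ φ ∈ Inn T.carrier, φ '' {x | (x : Q) ∈ N.carrier} = {x | (x : Q) ∈ N.carrier}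

/-- the coset `x N` -/
def coset {Q : Type} [Loop Q] (x : Q) (N : Subloop Q) : Set Q := (fun m => x * m) '' N.carrier

/-- the quotient `T / N`, with the product `(x N) (y N) = (x y) N` of cosets, is commutative and
associative -/
def AbelianQuotient {Q : Type} [Loop Q] (N T : Subloop Q) : Prop :=
  ∀ x ∈ T.carrier, ∀ y ∈ T.carrier, ∀ z ∈ T.carrier,
    coset (x * y) N = coset (y * x) N ∧ coset (x * y * z) N = coset (x * (y * z)) N

/-- solvable loops: there is a chain `1 = S 0 ≤ S 1 ≤ ... ≤ S n = Q` of subloops, each one normal in the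
next one with an abelian group as quotient -/
def Solvable (Q : Type) [Loop Q] : Prop :=
  ∃ (n : ℕ) (S : ℕ → Subloop Q), (S 0).carrier = {1} ∧ (S n).carrier = Set.univ ∧
    ∀ i < n, NormalIn (S i) (S (i + 1)) ∧ AbelianQuotient (S i) (S (i + 1))

/-- the largest divisor of `n` all of whose prime factors lie in `π` -/
noncomputable def piPart (π : Set ℕ) (n : ℕ) : ℕ :=
  sSup {d | d ∣ n ∧ ∀ p : ℕ, p.Prime → p ∣ d → p ∈ π}

private theorem piPart_eq (π : Set ℕ) (m k : ℕ) (hpos : 0 < m * k)
    (h1 : ∀ p : ℕ, p.Prime → p ∣ m → p ∈ π) (h2 : ∀ p : ℕ, p.Prime → p ∣ k → p ∉ π) :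
    piPart π (m * k) = m := by
  refine IsGreatest.csSup_eq ⟨⟨dvd_mul_right m k, h1⟩, ?_⟩
  rintro d ⟨hd, hdπ⟩
  have hcop : Nat.Coprime d k := by
    refine Nat.Coprime.symm (Nat.coprime_of_dvd fun p hp hpk hpd => ?_)
    exact h2 p hp hpk (hdπ p hp hpd)
  have hdm : d ∣ m := hcop.dvd_of_dvd_mul_right hd
  refine Nat.le_of_dvd ?_ hdm
  rcases Nat.eq_zero_or_pos m with h | h
  · rw [h] at hpos
    simp at hpos
  · exact h

/-- Every finite solvable automorphic loop has a Hall `π`-subloop for every set of primes `π`. -/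
theorem result : ∀ (Q : Type) [Loop Q] [Finite Q], Automorphic Q → Solvable Q →
    ∀ π : Set ℕ, ∃ S : Subloop Q, Nat.card S.carrier = piPart π (Nat.card Q) := by
  intro Q _ _ hA hS π
  classical
  have hinL : ∀ x y u : Q, x * y * ((Lm (x * y))⁻¹ * Lm x * Lm y : Equiv.Perm Q) u =
      x * (y * u) := by
    intro x y u
    show (Lm (x * y)) ((Lm (x * y)).symm (x * (y * u))) = x * (y * u)
    exact Equiv.apply_symm_apply _ _
  have hinR : ∀ x y u : Q, ((Rm (x * y))⁻¹ * Rm y * Rm x : Equiv.Perm Q) u * (x * y) =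
      (u * x) * y := by
    intro x y u
    show (Rm (x * y)) ((Rm (x * y)).symm (u * x * y)) = u * x * y
    exact Equiv.apply_symm_apply _ _
  have hinT : ∀ x u : Q, ((Rm x)⁻¹ * Lm x : Equiv.Perm Q) u * x = x * u := by
    intro x u
    show (Rm x) ((Rm x).symm (x * u)) = x * u
    exact Equiv.apply_symm_apply _ _
  have hloop : H13.ALoop.IsALoop Q := by
    refine ⟨Loop.left_bij, Loop.right_bij, ?_, ?_, ?_⟩
    · intro x y u v a b ha hb
      have hφ := hA _ (Subgroup.subset_closure (Or.inl (Or.inl ⟨x, y, rfl⟩))) u v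
      have e1 := (Loop.left_bij (x * y)).1 (show x * y * a = x * y * _ from
        ha.trans (hinL x y u).symm)
      have e2 := (Loop.left_bij (x * y)).1 (show x * y * b = x * y * _ from
        hb.trans (hinL x y v).symm)
      rw [e1, e2, ← hφ]
      exact hinL x y (u * v)
    · intro x y u v a b ha hb
      have hφ := hA _ (Subgroup.subset_closure (Or.inl (Or.inr ⟨y, x, rfl⟩))) u v
      have e1 := (Loop.right_bij (y * x)).1 (show a * (y * x) = _ * (y * x) from
        ha.trans (hinR y x u).symm)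
      have e2 := (Loop.right_bij (y * x)).1 (show b * (y * x) = _ * (y * x) from
        hb.trans (hinR y x v).symm)
      rw [e1, e2, ← hφ]
      exact hinR y x (u * v)
    · intro x u v a b ha hb
      have hφ := hA _ (Subgroup.subset_closure (Or.inr ⟨x, rfl⟩)) u v
      have e1 := (Loop.right_bij x).1 (show a * x = _ * x from ha.trans (hinT x u).symm)
      have e2 := (Loop.right_bij x).1 (show b * x = _ * x from hb.trans (hinT x v).symm)
      rw [e1, e2, ← hφ]
      exact hinT x (u * v)
  have hsolv : H13.ALoop.Solv Q := by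
    obtain ⟨n, S, hS0, hSn, hch⟩ := hS
    intro H hH
    have hex : ∃ k, ∀ x ∈ H, x ∈ (S k).carrier := ⟨n, fun x _ => by rw [hSn]; exact Set.mem_univ x⟩
    have hfind := Nat.find_spec hex
    have hmin : ∀ m, m < Nat.find hex → ¬ ∀ x ∈ H, x ∈ (S m).carrier :=
      fun m hm => Nat.find_min hex hm
    have hle : Nat.find hex ≤ n := Nat.find_le (fun x _ => by rw [hSn]; exact Set.mem_univ x)
    have hpos : Nat.find hex ≠ 0 := by
      intro h0
      rw [h0, hS0] at hfind
      apply hH
      rw [eq_bot_iff]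
      intro x hx
      have h1 := hfind x hx
      rw [Submonoid.mem_bot]
      exact h1
    obtain ⟨i, hi⟩ := Nat.exists_eq_succ_of_ne_zero hpos
    rw [hi] at hfind hmin hle
    have hnot := hmin i (Nat.lt_succ_self i)
    obtain ⟨-, hab⟩ := hch i hle
    let K : Submonoid Q :=
      { carrier := {x | x ∈ H ∧ x ∈ (S i).carrier}
        one_mem' := ⟨one_mem H, (S i).one_mem⟩
        mul_mem' := fun {a b} ha hb => ⟨mul_mem ha.1 hb.1, (S i).mul_mem a ha.2 b hb.2⟩ }
    refine ⟨K, ?_, ?_⟩
    · refine lt_of_le_of_ne (fun x hx => hx.1) ?_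
      intro hEq
      apply hnot
      intro x hx
      rw [← hEq] at hx
      exact hx.2
    · intro x hx y hy z hz
      obtain ⟨c1, c2⟩ := hab x (hfind x hx) y (hfind y hy) z (hfind z hz)
      have d1 : x * y ∈ coset (y * x) (S i) := by
        rw [← c1]
        exact ⟨1, (S i).one_mem, mul_one _⟩
      have d2 : x * y * z ∈ coset (x * (y * z)) (S i) := by
        rw [← c2]
        exact ⟨1, (S i).one_mem, mul_one _⟩
      obtain ⟨m', hm', e2⟩ := d1
      obtain ⟨m, hm, e1⟩ := d2
      have e1' : (x * (y * z)) * m = x * y * z := e1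
      have e2' : (y * x) * m' = x * y := e2
      refine ⟨⟨m, ⟨?_, hm⟩, e1'.symm⟩, ⟨m', ⟨?_, hm'⟩, e2'.symm⟩⟩
      · apply H13.ALoop.mem_of_mul_mem_left (mul_mem hx (mul_mem hy hz))
        rw [e1']
        exact mul_mem (mul_mem hx hy) hz
      · apply H13.ALoop.mem_of_mul_mem_left (mul_mem hy hx)
        rw [e2']
        exact mul_mem hx hy
  obtain ⟨H, k, h1, h2, h3⟩ := H13.ALoop.hall π _ Q rfl hsolv
  refine ⟨⟨{x | x ∈ H}, ⟨1, one_mem H⟩, fun a ha b hb => ?_, ?_, ?_⟩, ?_⟩
  · have ha' : a ∈ H := ha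
    have hb' : b ∈ H := hb
    exact mul_mem ha' hb'
  · intro a ha b hb x hx
    have hb' : a * x ∈ H := by
      rw [hx]
      exact hb
    exact H13.ALoop.mem_of_mul_mem_left ha hb'
  · intro a ha b hb x hx
    have hb' : x * a ∈ H := by
      rw [hx]
      exact hb
    exact H13.ALoop.mem_of_mul_mem_right ha hb'
  · have hpos : 0 < Nat.card H * k := by
      rw [h1]
      exact Nat.card_pos
    rw [← h1]
    exact (piPart_eq π (Nat.card H) k hpos h2 h3).symm

end Pool.Agent.Results.MP_428e1d_al.HallSubloops
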